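import Mathlib

set_option autoImplicit false

/-! # In ZFC some pure state of `B(H)` is not diagonalizable

`H` is a separable infinite-dimensional complex Hilbert space.  Write `H` as the orthogonal sum of
blocks `H_k = ℓ²(Λ_k)`, where `Λ_k = ((Fin k → Bool) → A_k)` and `A_k = Fin q_k × Fin q_k`.  An
orthonormal sequence `e` is coded by a branch `ξ_e : ℕ → Bool` (distinct sequences get distinct
branches) and receives a closed subspace `L_e` of `H`: at level `k` it imposes, at the tensor position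
`ξ_e ↾ k`, a unit vector of `ℓ²(A_k)` given by a Reed-Solomon code word.  The code word can be chosen
such that the projection `Q_e` on `L_e` satisfies `⟨Q_e e_n, e_n⟩ ≤ 1/2` for all `n`, while finitely
many of the spaces `L_e` always have a common unit vector, because finitely many branches are distinct
from some level on.  Hence there is a pure state `φ` with `φ (Q_e) = 1` for every orthonormal sequence
`e`, and such a state is not the limit of the vector functionals of any orthonormal sequence. -/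

open scoped InnerProductSpace ComplexOrder
open Filter Topology

namespace Pool.Agent.Results.MP_b8e63c_lc.NonDiagonalizable

variable {H : Type*} [NormedAddCommGroup H] [InnerProductSpace ℂ H] [CompleteSpace H]

/-- A state of `B(H)`: a positive linear functional of norm one. -/
def IsState (φ : (H →L[ℂ] H) →L[ℂ] ℂ) : Prop :=
  (∀ T : H →L[ℂ] H, 0 ≤ φ (star T * T)) ∧ ‖φ‖ = 1

/-- A pure state: an extreme point of the convex set of states. -/
def IsPureState (φ : (H →L[ℂ] H) →L[ℂ] ℂ) : Prop :=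
  φ ∈ Set.extremePoints ℝ {ψ : (H →L[ℂ] H) →L[ℂ] ℂ | IsState ψ}

/-- A functional on `B(H)` is diagonalizable if it is the limit, along an ultrafilter, of the
vector functionals of an orthonormal basis. -/
def IsDiagonalizable (φ : (H →L[ℂ] H) →L[ℂ] ℂ) : Prop :=
  ∃ (b : HilbertBasis ℕ ℂ H) (U : Ultrafilter ℕ),
    ∀ T : H →L[ℂ] H, Tendsto (fun n => ⟪b n, T (b n)⟫_ℂ) U (𝓝 (φ T))

theorem exists_code_agree (p r : ℕ) [hp : Fact p.Prime] (c d : Fin r → ZMod p) (hcd : c ≠ d) :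
    (Finset.univ.filter (fun a : ZMod p => (∑ i, c i * a ^ (i : ℕ)) = ∑ i, d i * a ^ (i : ℕ))).card
      < r := by
  classical
  let P : Polynomial (ZMod p) := ∑ i : Fin r, Polynomial.C (c i - d i) * Polynomial.X ^ (i : ℕ)
  have hcoef : ∀ j : Fin r, P.coeff j = c j - d j := by
    intro j
    simp only [P, Polynomial.finsetSum_coeff, Polynomial.coeff_C_mul, Polynomial.coeff_X_pow]
    rw [Finset.sum_eq_single j]
    · simp
    · intro b _ hb
      rw [if_neg (fun h => hb (Fin.ext h.symm)), mul_zero]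
    · intro h
      exact absurd (Finset.mem_univ j) h
  have hP : P ≠ 0 := by
    intro h0
    apply hcd
    funext j
    have := hcoef j
    rw [h0, Polynomial.coeff_zero] at this
    exact (sub_eq_zero.mp this.symm)
  have hdeg : P.degree < (r : ℕ) := Polynomial.degree_sum_fin_lt (fun i => c i - d i)
  have hroots : (Finset.univ.filter (fun a : ZMod p =>
      (∑ i, c i * a ^ (i : ℕ)) = ∑ i, d i * a ^ (i : ℕ))) ⊆ P.roots.toFinset := by
    intro a ha
    rw [Finset.mem_filter] at ha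
    rw [Multiset.mem_toFinset, Polynomial.mem_roots hP, Polynomial.IsRoot.def]
    simp only [P, Polynomial.eval_finsetSum, Polynomial.eval_mul, Polynomial.eval_C,
      Polynomial.eval_pow, Polynomial.eval_X, sub_mul, Finset.sum_sub_distrib]
    rw [ha.2, sub_self]
  have h1 : (Finset.univ.filter (fun a : ZMod p =>
      (∑ i, c i * a ^ (i : ℕ)) = ∑ i, d i * a ^ (i : ℕ))).card ≤ P.natDegree :=
    (Finset.card_le_card hroots).trans
      ((Multiset.toFinset_card_le _).trans (Polynomial.card_roots' P))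
  have h2 : P.natDegree < r := (Polynomial.natDegree_lt_iff_degree_lt hP).mpr hdeg
  omega

theorem exists_code (k : ℕ) : ∃ q : ℕ, 0 < q ∧ ∃ G : Finset (Fin q → Fin q),
    (∀ g ∈ G, ∀ h ∈ G, g ≠ h →
      8 * (Finset.univ.filter (fun a => g a = h a)).card ≤ q) ∧
    7 * (q * q) ^ (2 ^ k) * 2 ^ (k + 3) < G.card := by
  classical
  let r := 2 * 2 ^ k + k + 6
  obtain ⟨p, hpr, hp⟩ := Nat.exists_infinite_primes (8 * r)
  haveI : Fact p.Prime := ⟨hp⟩
  have hr0 : 0 < r := by positivity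
  let e : ZMod p ≃ Fin p := Fintype.equivOfCardEq (by rw [ZMod.card, Fintype.card_fin])
  let w : (Fin r → ZMod p) → (Fin p → Fin p) := fun c a =>
    e (∑ i, c i * (e.symm a) ^ (i : ℕ))
  have hag : ∀ c d : Fin r → ZMod p, c ≠ d →
      (Finset.univ.filter (fun a => w c a = w d a)).card < r := by
    intro c d hcd
    refine lt_of_le_of_lt ?_ (exists_code_agree p r c d hcd)
    apply Finset.card_le_card_of_injOn e.symm
    · intro a ha
      rw [Finset.mem_coe, Finset.mem_filter] at ha ⊢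
      exact ⟨Finset.mem_univ _, e.injective ha.2⟩
    · exact e.symm.injective.injOn
  have hinj : Function.Injective w := by
    intro c d hw
    by_contra hcd
    have h1 := hag c d hcd
    rw [hw] at h1
    simp only [Finset.filter_true, Finset.card_univ, Fintype.card_fin] at h1
    omega
  refine ⟨p, hp.pos, Finset.univ.image w, ?_, ?_⟩
  · intro g hg h hh hgh
    rw [Finset.mem_image] at hg hh
    obtain ⟨c, _, rfl⟩ := hg
    obtain ⟨d, _, rfl⟩ := hh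
    have h1 := hag c d (fun h => hgh (by rw [h]))
    omega
  · rw [Finset.card_image_of_injective _ hinj, Finset.card_univ, Fintype.card_fun, ZMod.card,
      Fintype.card_fin]
    have e1 : (p * p) ^ (2 ^ k) = p ^ (2 * 2 ^ k) := by
      rw [← pow_two, ← pow_mul]
    have e2 : p ^ r = p ^ (2 * 2 ^ k) * p ^ (k + 6) := by
      rw [← pow_add]
      congr 1
    rw [e1, e2, mul_comm 7, mul_assoc]
    apply Nat.mul_lt_mul_of_pos_left _ (pow_pos hp.pos _)
    calc 7 * 2 ^ (k + 3) < 2 ^ (k + 6) := by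
          have : 0 < 2 ^ k := by positivity
          rw [pow_add, pow_add]
          omega
      _ ≤ p ^ (k + 6) := Nat.pow_le_pow_left hp.two_le _

theorem exists_basis_reindex [TopologicalSpace.SeparableSpace H] (hinf : ¬ FiniteDimensional ℂ H)
    (J : Type) [Countable J] [Infinite J] : Nonempty (HilbertBasis J ℂ H) := by
  obtain ⟨w, b, hb⟩ := exists_hilbertBasis ℂ H
  have hcount : Countable w := by
    refine Pairwise.countable_of_isOpen_disjoint (s := fun i : w => Metric.ball (i : H) (1 / 2))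
      ?_ (fun i => Metric.isOpen_ball) (fun i => ⟨i, Metric.mem_ball_self (by norm_num)⟩)
    intro i j hij
    apply Metric.ball_disjoint_ball
    have h1 := b.orthonormal.2 hij
    have h2 := b.orthonormal.1 i
    have h3 := b.orthonormal.1 j
    rw [hb] at h1 h2 h3
    have h4 := @norm_sub_sq ℂ H _ _ _ (i : H) (j : H)
    rw [h1, h2, h3] at h4
    rw [dist_eq_norm]
    have h5 : ‖(i : H) - (j : H)‖ ^ 2 = 2 := by
      rw [h4]
      simp
      norm_num
    have h6 := norm_nonneg ((i : H) - (j : H))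
    nlinarith
  have hinfw : Infinite w := by
    by_contra hcon
    rw [not_infinite_iff_finite] at hcon
    have hft : Fintype w := Fintype.ofFinite w
    apply hinf
    exact Module.Basis.finiteDimensional_of_finite b.toOrthonormalBasis.toBasis
  obtain ⟨e⟩ := nonempty_equiv_of_countable (α := J) (β := w)
  refine ⟨HilbertBasis.mk (v := fun j => b (e j)) (b.orthonormal.comp e e.injective) ?_⟩
  have h1 : Set.range (fun j => b (e j)) = Set.range b := e.surjective.range_comp b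
  rw [h1, b.dense_span]

theorem exists_inj {J : Type} [Countable J] (b : HilbertBasis J ℂ H) :
    ∃ c : (ℕ → H) → (ℕ → Bool), Function.Injective c := by
  have hcard : Cardinal.mk (ℕ → J → ℂ) ≤ Cardinal.mk (ℕ → Bool) := by
    have e1 : Cardinal.mk (ℕ → J → ℂ) = (Cardinal.mk ℂ ^ Cardinal.mk J) ^ Cardinal.mk ℕ := rfl
    have e2 : Cardinal.mk (ℕ → Bool) = Cardinal.mk Bool ^ Cardinal.mk ℕ := rfl
    rw [e1, e2, Cardinal.mk_complex, Cardinal.mk_nat, Cardinal.mk_bool, Cardinal.two_power_aleph0]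
    calc (Cardinal.continuum ^ Cardinal.mk J) ^ Cardinal.aleph0
        ≤ (Cardinal.continuum ^ Cardinal.aleph0) ^ Cardinal.aleph0 :=
          Cardinal.power_le_power_right (Cardinal.power_le_power_left Cardinal.continuum_ne_zero
            Cardinal.mk_le_aleph0)
      _ = Cardinal.continuum := by
          rw [Cardinal.continuum_power_aleph0, Cardinal.continuum_power_aleph0]
  rw [Cardinal.le_def] at hcard
  obtain ⟨g⟩ := hcard
  refine ⟨fun e => g (fun n j => b.repr (e n) j), ?_⟩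
  intro e e' h
  have h1 := g.injective h
  funext n
  apply b.repr.injective
  apply lp.ext
  funext j
  exact congrFun (congrFun h1 n) j

/-- helper: normalized positive contractive linear functionals, as functions -/
def stK (H : Type*) [NormedAddCommGroup H] [InnerProductSpace ℂ H] [CompleteSpace H] :
    Set ((H →L[ℂ] H) → ℂ) :=
  {f | (∀ S T, f (S + T) = f S + f T) ∧ (∀ (c : ℂ) T, f (c • T) = c * f T) ∧
    (∀ T, ‖f T‖ ≤ ‖T‖) ∧ (∀ T, 0 ≤ f (star T * T)) ∧ f 1 = 1}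

theorem stK_compact : IsCompact (stK H) := by
  have hsub : stK H ⊆ Set.pi Set.univ (fun T => Metric.closedBall (0:ℂ) ‖T‖) := fun f hf T _ => by
    rw [mem_closedBall_zero_iff]; exact hf.2.2.1 T
  refine (isCompact_univ_pi fun T => isCompact_closedBall 0 ‖T‖).of_isClosed_subset ?_ hsub
  unfold stK
  simp only [Set.ofPred_and, Set.ofPred_forall]
  refine IsClosed.inter ?_ (IsClosed.inter ?_ (IsClosed.inter ?_ (IsClosed.inter ?_ ?_)))
  · exact isClosed_iInter fun S => isClosed_iInter fun T =>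
      isClosed_eq (by fun_prop) (by fun_prop)
  · exact isClosed_iInter fun c => isClosed_iInter fun T =>
      isClosed_eq (by fun_prop) (by fun_prop)
  · exact isClosed_iInter fun T =>
      isClosed_le (continuous_apply _).norm continuous_const
  · exact isClosed_iInter fun T =>
      isClosed_le continuous_const (continuous_apply _)
  · exact isClosed_eq (continuous_apply _) continuous_const

theorem stK_vec (x : H) (hx : ‖x‖ = 1) : (fun T : H →L[ℂ] H => ⟪x, T x⟫_ℂ) ∈ stK H := by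
  refine ⟨?_, ?_, ?_, ?_, ?_⟩
  · intro S T
    simp [inner_add_right]
  · intro c T
    simp [inner_smul_right]
  · intro T
    refine (norm_inner_le_norm x (T x)).trans ?_
    rw [hx, one_mul]
    refine (T.le_opNorm x).trans ?_
    rw [hx, mul_one]
  · intro T
    show 0 ≤ ⟪x, (star T * T) x⟫_ℂ
    rw [ContinuousLinearMap.star_eq_adjoint, mul_apply_eq_comp,
      ContinuousLinearMap.adjoint_inner_right, inner_self_eq_norm_sq_to_K]
    have : (0:ℂ) ≤ ((‖T x‖^2 : ℝ) : ℂ) := Complex.zero_le_real.2 (sq_nonneg _)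
    simpa using this
  · show ⟪x, (1 : H →L[ℂ] H) x⟫_ℂ = 1
    rw [one_apply_eq_self, inner_self_eq_norm_sq_to_K, hx]
    simp

theorem conv_one_aux (a b : ℝ) (ha : 0 < a) (hb : 0 < b) (hab : a + b = 1) (z w : ℂ)
    (hz : ‖z‖ ≤ 1) (hw : ‖w‖ ≤ 1) (h : a • z + b • w = 1) : z = 1 := by
  have h1 := congrArg Complex.re h
  simp only [Complex.add_re, Complex.real_smul, Complex.re_ofReal_mul, Complex.one_re] at h1
  have h2 : z.re ≤ 1 := (Complex.re_le_norm z).trans hz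
  have h3 : w.re ≤ 1 := (Complex.re_le_norm w).trans hw
  have h4 : z.re = 1 := by nlinarith
  have h5 : z.re ^ 2 + z.im ^ 2 ≤ 1 := by
    have h6 : ‖z‖ ^ 2 = z.re ^ 2 + z.im ^ 2 := by
      rw [← Complex.normSq_eq_norm_sq, Complex.normSq_apply]; ring
    rw [← h6]
    nlinarith [norm_nonneg z]
  have h7 : z.im = 0 := by
    rw [h4] at h5
    nlinarith [sq_nonneg z.im]
  exact Complex.ext (by simpa using h4) (by simpa using h7)

theorem stK_of_state (φ : (H →L[ℂ] H) →L[ℂ] ℂ) (hφ : IsState φ) (h1 : φ 1 = 1) :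
    (fun T => φ T) ∈ stK H := by
  refine ⟨fun S T => map_add φ S T, fun c T => ?_, fun T => ?_, hφ.1, h1⟩
  · simp
  · have := φ.le_opNorm T
    rwa [hφ.2, one_mul] at this


theorem exists_pure {I : Type*} (Q : I → (H →L[ℂ] H)) (hQ : ∀ i, ‖Q i‖ ≤ 1)
    (hF : ∀ F : Finset I, ∃ x : H, ‖x‖ = 1 ∧ ∀ i ∈ F, Q i x = x) :
    ∃ φ : (H →L[ℂ] H) →L[ℂ] ℂ, IsPureState φ ∧ ∀ i, φ (Q i) = 1 := 
  by
  have hK := stK_compact (H := H)
  have hcl : ∀ i, IsClosed {f : (H →L[ℂ] H) → ℂ | f (Q i) = 1} := fun i =>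
    isClosed_eq (continuous_apply _) continuous_const
  have hne : (stK H ∩ ⋂ i, {f : (H →L[ℂ] H) → ℂ | f (Q i) = 1}).Nonempty := by
    refine hK.inter_iInter_nonempty _ hcl ?_
    intro F
    obtain ⟨x, hx, hxF⟩ := hF F
    refine ⟨_, stK_vec x hx, ?_⟩
    simp only [Set.mem_iInter, Set.mem_ofPred_eq]
    intro i hi
    rw [hxF i hi, inner_self_eq_norm_sq_to_K, hx]
    simp
  have hK1 : IsCompact (stK H ∩ ⋂ i, {f : (H →L[ℂ] H) → ℂ | f (Q i) = 1}) :=
    hK.inter_right (isClosed_iInter hcl)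
  obtain ⟨f, hf⟩ := hK1.extremePoints_nonempty hne
  have hfK := hf.1.1
  have hfQ : ∀ i, f (Q i) = 1 := by
    have := hf.1.2
    simpa [Set.mem_iInter] using this
  obtain ⟨φ, hφ⟩ : ∃ φ : (H →L[ℂ] H) →L[ℂ] ℂ, (∀ T, φ T = f T) ∧ ‖φ‖ ≤ 1 := by
    let L : (H →L[ℂ] H) →ₗ[ℂ] ℂ :=
      { toFun := f, map_add' := hfK.1, map_smul' := fun c T => hfK.2.1 c T }
    refine ⟨L.mkContinuous 1 (fun T => ?_), fun T => rfl, ?_⟩
    · rw [one_mul]; exact hfK.2.2.1 T
    · exact L.mkContinuous_norm_le zero_le_one _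
  obtain ⟨hφf, hφ1⟩ := hφ
  have hst : IsState φ := by
    refine ⟨fun T => ?_, le_antisymm hφ1 ?_⟩
    · rw [hφf]; exact hfK.2.2.2.1 T
    · have h1 : ‖φ 1‖ ≤ ‖φ‖ * ‖(1 : H →L[ℂ] H)‖ := φ.le_opNorm 1
      rw [hφf, hfK.2.2.2.2, norm_one] at h1
      have h2 : ‖(1 : H →L[ℂ] H)‖ ≤ 1 := ContinuousLinearMap.norm_id_le
      have h3 := norm_nonneg φ
      nlinarith
  refine ⟨φ, ⟨hst, ?_⟩, fun i => by rw [hφf]; exact hfQ i⟩
  intro φ1 h1 φ2 h2 hseg
  obtain ⟨a, b, ha, hb, hab, heq⟩ := hseg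
  have hval : ∀ T, a • φ1 T + b • φ2 T = f T := by
    intro T
    rw [← hφf, ← heq]
    rfl
  have hbound : ∀ ψ : (H →L[ℂ] H) →L[ℂ] ℂ, IsState ψ → ∀ T, ‖T‖ ≤ 1 → ‖ψ T‖ ≤ 1 := by
    intro ψ hψ T hT
    have := ψ.le_opNorm T
    rw [hψ.2, one_mul] at this
    exact this.trans hT
  have hone : ‖(1 : H →L[ℂ] H)‖ ≤ 1 := ContinuousLinearMap.norm_id_le
  have key : ∀ T, ‖T‖ ≤ 1 → f T = 1 → φ1 T = 1 ∧ φ2 T = 1 := by
    intro T hT hfT
    have hv := hval T
    rw [hfT] at hv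
    refine ⟨conv_one_aux a b ha hb hab _ _ (hbound φ1 h1 T hT) (hbound φ2 h2 T hT) hv,
      conv_one_aux b a hb ha (by linarith) _ _ (hbound φ2 h2 T hT) (hbound φ1 h1 T hT) ?_⟩
    rw [add_comm]
    exact hv
  have hmem : ∀ ψ : (H →L[ℂ] H) →L[ℂ] ℂ, IsState ψ → (∀ T, ‖T‖ ≤ 1 → f T = 1 → ψ T = 1) →
      (fun T => ψ T) ∈ stK H ∩ ⋂ i, {f : (H →L[ℂ] H) → ℂ | f (Q i) = 1} := by
    intro ψ hψ hψ1
    refine ⟨stK_of_state ψ hψ (hψ1 1 hone hfK.2.2.2.2), ?_⟩
    simp only [Set.mem_iInter, Set.mem_ofPred_eq]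
    exact fun i => hψ1 _ (hQ i) (hfQ i)
  have hext := hf.2 (hmem φ1 h1 fun T hT h => (key T hT h).1)
    (hmem φ2 h2 fun T hT h => (key T hT h).2) ⟨a, b, ha, hb, hab, funext hval⟩
  ext T
  rw [hφf]
  exact congrFun hext T

theorem bad_count {E : Type*} [NormedAddCommGroup E] [InnerProductSpace ℂ E] {κ : Type*}
    (V : Finset κ) (x : κ → E) (y : E) (hx : ∀ g ∈ V, ‖x g‖ ≤ 1)
    (hμ : ∀ g ∈ V, ∀ h ∈ V, g ≠ h → ‖⟪x g, x h⟫_ℂ‖ ≤ 1 / 8)
    (hy : ∀ g ∈ V, ‖y‖ ^ 2 / 4 < ‖⟪x g, y⟫_ℂ‖ ^ 2) : V.card ≤ 7 := by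
  classical
  by_contra hcon
  push Not at hcon
  obtain ⟨c, hc⟩ : ∃ c : κ → ℂ, c = fun g => ⟪x g, y⟫_ℂ := ⟨_, rfl⟩
  have hcg : ∀ g, ⟪x g, y⟫_ℂ = c g := fun g => by rw [hc]
  simp only [hcg] at hy
  obtain ⟨C, hC⟩ : ∃ C : ℝ, C = ∑ g ∈ V, ‖c g‖ ^ 2 := ⟨_, rfl⟩
  obtain ⟨w, hw⟩ : ∃ w : E, w = ∑ g ∈ V, c g • x g := ⟨_, rfl⟩
  have hwy : ⟪w, y⟫_ℂ = (C : ℂ) := by
    rw [hw, sum_inner, hC]
    push_cast
    apply Finset.sum_congr rfl
    intro g _
    rw [inner_smul_left, hcg, Complex.conj_mul']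
  have hC0 : 0 ≤ C := by rw [hC]; exact Finset.sum_nonneg (fun _ _ => sq_nonneg _)
  have h1 : C ≤ ‖w‖ * ‖y‖ := by
    have := norm_inner_le_norm (𝕜 := ℂ) w y
    rw [hwy, Complex.norm_real, Real.norm_eq_abs, abs_of_nonneg hC0] at this
    exact this
  have h2 : ‖w‖ ^ 2 ≤ C + 1 / 8 * (∑ g ∈ V, ‖c g‖) ^ 2 := by
    have e1 : ‖w‖ ^ 2 = ‖⟪w, w⟫_ℂ‖ := by
      rw [inner_self_eq_norm_sq_to_K]
      simp
    have e2 : ⟪w, w⟫_ℂ = ∑ g ∈ V, ∑ h ∈ V, (starRingEnd ℂ (c g)) * (c h * ⟪x g, x h⟫_ℂ) := by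
      conv_lhs => rw [hw]
      rw [sum_inner]
      apply Finset.sum_congr rfl
      intro g _
      rw [inner_smul_left, inner_sum, Finset.mul_sum]
      apply Finset.sum_congr rfl
      intro h _
      rw [inner_smul_right]
    rw [e1, e2]
    have e3 : ∀ g ∈ V, ∀ h ∈ V, ‖(starRingEnd ℂ (c g)) * (c h * ⟪x g, x h⟫_ℂ)‖ ≤
        (if g = h then ‖c g‖ ^ 2 else 0) + 1 / 8 * (‖c g‖ * ‖c h‖) := by
      intro g hg h hh
      rw [norm_mul, norm_mul, RCLike.norm_conj]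
      by_cases hgh : g = h
      · subst hgh
        rw [if_pos rfl]
        have : ‖⟪x g, x g⟫_ℂ‖ ≤ 1 := by
          refine (norm_inner_le_norm _ _).trans ?_
          have := hx g hg
          nlinarith [norm_nonneg (x g)]
        have h3 : ‖c g‖ * (‖c g‖ * ‖⟪x g, x g⟫_ℂ‖) ≤ ‖c g‖ ^ 2 := by
          have := mul_le_mul_of_nonneg_left this (sq_nonneg ‖c g‖)
          nlinarith
        have h4 : 0 ≤ 1 / 8 * (‖c g‖ * ‖c g‖) := by positivity
        linarith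
      · rw [if_neg hgh, zero_add]
        have h3 := hμ g hg h hh hgh
        have h4 : 0 ≤ ‖c g‖ * ‖c h‖ := by positivity
        have := mul_le_mul_of_nonneg_left h3 h4
        nlinarith
    refine (norm_sum_le _ _).trans ?_
    refine (Finset.sum_le_sum (fun g hg => (norm_sum_le _ _).trans
      (Finset.sum_le_sum (fun h hh => e3 g hg h hh)))).trans (le_of_eq ?_)
    have e4 : ∀ g ∈ V, ∑ h ∈ V, ((if g = h then ‖c g‖ ^ 2 else 0) + 1 / 8 * (‖c g‖ * ‖c h‖)) =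
        ‖c g‖ ^ 2 + 1 / 8 * (‖c g‖ * ∑ h ∈ V, ‖c h‖) := by
      intro g hg
      rw [Finset.sum_add_distrib, Finset.sum_ite_eq, if_pos hg, ← Finset.mul_sum, ← Finset.mul_sum]
    rw [Finset.sum_congr rfl e4, Finset.sum_add_distrib, ← hC, ← Finset.mul_sum, ← Finset.sum_mul]
    ring
  have h3 : (∑ g ∈ V, ‖c g‖) ^ 2 ≤ V.card * C := by
    rw [hC]
    exact sq_sum_le_card_mul_sum_sq
  have hne : V.Nonempty := by
    rw [← Finset.card_pos]
    omega
  have h4 : (V.card : ℝ) * (‖y‖ ^ 2 / 4) < C := by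
    rw [hC, ← nsmul_eq_mul, ← Finset.sum_const]
    exact Finset.sum_lt_sum_of_nonempty hne hy
  have hn : (8 : ℝ) ≤ V.card := by exact_mod_cast hcon
  have hN : 0 ≤ ‖y‖ ^ 2 := sq_nonneg _
  have hCpos : 0 < C := lt_of_le_of_lt (by positivity) h4
  have h5 : C ^ 2 ≤ (‖w‖ * ‖y‖) ^ 2 := pow_le_pow_left₀ hC0 h1 2
  have h6 : C ^ 2 ≤ ((1 + V.card / 8) * C) * ‖y‖ ^ 2 := by
    rw [mul_pow] at h5
    refine h5.trans (mul_le_mul_of_nonneg_right ?_ hN)
    linarith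
  have h7 : C ≤ (1 + V.card / 8) * ‖y‖ ^ 2 := by
    have : C * C ≤ C * ((1 + V.card / 8) * ‖y‖ ^ 2) := by nlinarith
    exact le_of_mul_le_mul_left this hCpos
  have h8 : 0 ≤ ((V.card : ℝ) / 8 - 1) * ‖y‖ ^ 2 := mul_nonneg (by linarith) hN
  nlinarith

/-- arrays supported on the graph of `g` at the coordinate `s` and constant along this graph -/
def RR {S : Type} {q : ℕ} (s : S) (g : Fin q → Fin q)
    (X : (S → Fin q × Fin q) → ℂ) : Prop :=
  (∀ f, (f s).2 ≠ g (f s).1 → X f = 0) ∧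
  (∀ f f', (∀ t, t ≠ s → f t = f' t) → (f s).2 = g (f s).1 → (f' s).2 = g (f' s).1 → X f = X f')

theorem overlap {S : Type} [Fintype S] [DecidableEq S] {q : ℕ} (hq : 0 < q) (s : S)
    (g h : Fin q → Fin q)
    (hag : 8 * (Finset.univ.filter (fun a => g a = h a)).card ≤ q)
    (X Y : EuclideanSpace ℂ (S → Fin q × Fin q)) (hX : RR s g (fun f => X f))
    (hY : RR s h (fun f => Y f)) :
    ‖⟪X, Y⟫_ℂ‖ ≤ 1 / 8 * ‖X‖ * ‖Y‖ := by
  classical
  let e := Equiv.funSplitAt s (Fin q × Fin q)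
  have hes : ∀ p f2, (e.symm (p, f2)) s = p := by
    intro p f2
    simp [e, Equiv.funSplitAt, Equiv.piSplitAt]
  have heo : ∀ p f2 t (ht : t ≠ s), (e.symm (p, f2)) t = f2 ⟨t, ht⟩ := by
    intro p f2 t ht
    simp [e, Equiv.funSplitAt, Equiv.piSplitAt, ht]
  let a0 : Fin q := ⟨0, hq⟩
  have key : ∀ (g : Fin q → Fin q) (X : EuclideanSpace ℂ (S → Fin q × Fin q)),
      RR s g (fun f => X f) → ∃ X1 : EuclideanSpace ℂ ({t // t ≠ s} → Fin q × Fin q),
      ∀ p f2, X (e.symm (p, f2)) = if p.2 = g p.1 then X1 f2 else 0 := by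
    intro g X hX
    refine ⟨WithLp.toLp 2 (fun f2 => X (e.symm ((a0, g a0), f2))), ?_⟩
    intro p f2
    split_ifs with hp
    · refine hX.2 _ _ ?_ ?_ ?_
      · intro t ht
        rw [heo _ _ t ht, heo _ _ t ht]
      · rw [hes]; exact hp
      · rw [hes]
    · refine hX.1 _ ?_
      rw [hes]; exact hp
  obtain ⟨X1, hX1⟩ := key g X hX
  obtain ⟨Y1, hY1⟩ := key h Y hY
  have hsumC : ∀ (F : (S → Fin q × Fin q) → ℂ), ∑ f, F f =
      ∑ p : Fin q × Fin q, ∑ f2 : {t // t ≠ s} → Fin q × Fin q, F (e.symm (p, f2)) := by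
    intro F
    rw [← Fintype.sum_prod_type']
    exact (Equiv.sum_comp e.symm F).symm
  have hinn : ∀ (g h : Fin q → Fin q) (X Y : EuclideanSpace ℂ (S → Fin q × Fin q))
      (X1 Y1 : EuclideanSpace ℂ ({t // t ≠ s} → Fin q × Fin q)),
      (∀ p f2, X (e.symm (p, f2)) = if p.2 = g p.1 then X1 f2 else 0) →
      (∀ p f2, Y (e.symm (p, f2)) = if p.2 = h p.1 then Y1 f2 else 0) →
      ⟪X, Y⟫_ℂ = ((Finset.univ.filter (fun a => g a = h a)).card : ℂ) * ⟪X1, Y1⟫_ℂ := by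
    intro g h X Y X1 Y1 hX1 hY1
    rw [PiLp.inner_apply, PiLp.inner_apply, hsumC]
    have h1 : ∀ p : Fin q × Fin q, (∑ f2 : {t // t ≠ s} → Fin q × Fin q,
        ⟪X (e.symm (p, f2)), Y (e.symm (p, f2))⟫_ℂ) =
        if (p.2 = g p.1 ∧ p.2 = h p.1) then ∑ f2, ⟪X1 f2, Y1 f2⟫_ℂ else 0 := by
      intro p
      split_ifs with hp
      · refine Finset.sum_congr rfl fun f2 _ => ?_
        rw [hX1, hY1, if_pos hp.1, if_pos hp.2]
      · refine Finset.sum_eq_zero fun f2 _ => ?_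
        rw [hX1, hY1]
        by_cases h2 : p.2 = g p.1
        · have h3 : ¬ p.2 = h p.1 := fun h3 => hp ⟨h2, h3⟩
          rw [if_neg h3, inner_zero_right]
        · rw [if_neg h2, inner_zero_left]
    rw [Finset.sum_congr rfl (fun p _ => h1 p)]
    rw [← Finset.sum_filter, Finset.sum_const, nsmul_eq_mul]
    congr 2
    refine Finset.card_bij (fun p _ => p.1) ?_ ?_ ?_
    · intro p hp
      simp only [Finset.mem_filter, Finset.mem_univ, true_and] at hp ⊢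
      rw [← hp.1, ← hp.2]
    · intro p hp p' hp' hpp
      simp only [Finset.mem_filter, Finset.mem_univ, true_and] at hp hp'
      refine Prod.ext hpp ?_
      rw [hp.1, hp'.1]
      exact congrArg g hpp
    · intro a ha
      simp only [Finset.mem_filter, Finset.mem_univ, true_and] at ha
      exact ⟨(a, g a), by simp [ha], rfl⟩
  have hnorm : ∀ (g : Fin q → Fin q) (X : EuclideanSpace ℂ (S → Fin q × Fin q))
      (X1 : EuclideanSpace ℂ ({t // t ≠ s} → Fin q × Fin q)),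
      (∀ p f2, X (e.symm (p, f2)) = if p.2 = g p.1 then X1 f2 else 0) →
      ‖X‖ = Real.sqrt q * ‖X1‖ := by
    intro g X X1 hX1
    have h1 := hinn g g X X X1 X1 hX1 hX1
    rw [inner_self_eq_norm_sq_to_K, inner_self_eq_norm_sq_to_K] at h1
    simp only [Finset.filter_true, Finset.card_univ, Fintype.card_fin] at h1
    have h2 : ‖X‖ ^ 2 = q * ‖X1‖ ^ 2 := by
      have h4 : (((‖X‖ ^ 2 : ℝ)) : ℂ) = (((q : ℝ) * ‖X1‖ ^ 2 : ℝ) : ℂ) := by
        push_cast
        exact h1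
      exact Complex.ofReal_injective h4
    have h3 : ‖X‖ ^ 2 = (Real.sqrt q * ‖X1‖) ^ 2 := by
      rw [h2, mul_pow, Real.sq_sqrt (Nat.cast_nonneg q)]
    exact (pow_left_inj₀ (norm_nonneg _) (by positivity) (by norm_num)).1 h3
  rw [hinn g h X Y X1 Y1 hX1 hY1, hnorm g X X1 hX1, hnorm h Y Y1 hY1, norm_mul]
  have hcs : ‖⟪X1, Y1⟫_ℂ‖ ≤ ‖X1‖ * ‖Y1‖ := norm_inner_le_norm X1 Y1
  have hn : ‖((Finset.univ.filter (fun a => g a = h a)).card : ℂ)‖ ≤ 1 / 8 * q := by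
    rw [Complex.norm_natCast]
    have : (8 * (Finset.univ.filter (fun a => g a = h a)).card : ℝ) ≤ q := by exact_mod_cast hag
    linarith
  have hqq : Real.sqrt q * Real.sqrt q = q := Real.mul_self_sqrt (Nat.cast_nonneg q)
  calc _ ≤ (1 / 8 * (q : ℝ)) * (‖X1‖ * ‖Y1‖) :=
        mul_le_mul hn hcs (norm_nonneg _) (by positivity)
    _ = 1 / 8 * (Real.sqrt q * ‖X1‖) * (Real.sqrt q * ‖Y1‖) := by
        rw [show 1 / 8 * (Real.sqrt q * ‖X1‖) * (Real.sqrt q * ‖Y1‖) =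
          1 / 8 * (Real.sqrt q * Real.sqrt q) * (‖X1‖ * ‖Y1‖) by ring, hqq]

theorem exists_good {Λ : Type} [Fintype Λ] (v : Λ → H) (hv : Orthonormal ℂ v)
    (e : ℕ → H) (he : Orthonormal ℂ e) {κ : Type} (G : Finset κ)
    (R : κ → EuclideanSpace ℂ Λ → Prop)
    (hR : ∀ g ∈ G, ∀ h ∈ G, g ≠ h → ∀ X Y, R g X → R h Y → ‖⟪X, Y⟫_ℂ‖ ≤ 1 / 8 * ‖X‖ * ‖Y‖)
    (m : ℕ) (hG : 7 * Fintype.card Λ * 2 ^ m < G.card) :
    ∃ g ∈ G, ∀ n, (1 / 2 : ℝ) ^ m ≤ ‖(WithLp.toLp 2 (fun f => ⟪v f, e n⟫_ℂ) : EuclideanSpace ℂ Λ)‖ ^ 2 →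
      ∀ X, R g X → ‖⟪X, (WithLp.toLp 2 (fun f => ⟪v f, e n⟫_ℂ) : EuclideanSpace ℂ Λ)⟫_ℂ‖ ^ 2 ≤
        ‖X‖ ^ 2 * (‖(WithLp.toLp 2 (fun f => ⟪v f, e n⟫_ℂ) : EuclideanSpace ℂ Λ)‖ ^ 2 / 4) := by
  classical
  by_contra hcon
  push Not at hcon
  choose! n hn X hRX hX using hcon
  set y : ℕ → EuclideanSpace ℂ Λ := fun k => WithLp.toLp 2 (fun f => ⟪v f, e k⟫_ℂ) with hy
  have hpos : ∀ g ∈ G, 0 < ‖X g‖ := by
    intro g hg
    rw [norm_pos_iff]
    intro h0
    have h1 := hX g hg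
    rw [h0, inner_zero_left, norm_zero, norm_zero] at h1
    norm_num at h1
  have hcard : G.card ≤ 7 * (G.image n).card := by
    apply Finset.card_le_mul_card_image
    intro k _
    apply bad_count (G.filter (fun g => n g = k)) (fun g => ((‖X g‖⁻¹ : ℝ) : ℂ) • X g) (y k)
    · intro g hg
      have hg' := (Finset.mem_filter.mp hg).1
      rw [norm_smul, Complex.norm_real, norm_inv, norm_norm, inv_mul_cancel₀ (hpos g hg').ne']
    · intro g hg h hh hgh
      have hg' := (Finset.mem_filter.mp hg).1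
      have hh' := (Finset.mem_filter.mp hh).1
      have h1 := hR g hg' h hh' hgh (X g) (X h) (hRX g hg') (hRX h hh')
      have h2 := hpos g hg'
      have h3 := hpos h hh'
      rw [inner_smul_left, inner_smul_right, norm_mul, norm_mul, RCLike.norm_conj,
        Complex.norm_real, Complex.norm_real, norm_inv, norm_inv, norm_norm, norm_norm]
      have h4 : ‖X g‖⁻¹ * (‖X h‖⁻¹ * ‖⟪X g, X h⟫_ℂ‖) ≤
          ‖X g‖⁻¹ * (‖X h‖⁻¹ * (1 / 8 * ‖X g‖ * ‖X h‖)) := by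
        gcongr
      refine h4.trans (le_of_eq ?_)
      field_simp
    · intro g hg
      have hg' := (Finset.mem_filter.mp hg).1
      have hgk := (Finset.mem_filter.mp hg).2
      have h1 := hX g hg'
      have h2 := hpos g hg'
      rw [hgk] at h1
      have h3 : ‖X g‖ ^ 2 * (‖y k‖ ^ 2 / 4) < ‖⟪X g, y k⟫_ℂ‖ ^ 2 := h1
      rw [inner_smul_left, norm_mul, RCLike.norm_conj, Complex.norm_real, norm_inv, norm_norm,
        mul_pow, inv_pow, inv_mul_eq_div, lt_div_iff₀ (by positivity)]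
      linarith
  have hA : ((G.image n).card : ℝ) * (1 / 2) ^ m ≤ Fintype.card Λ := by
    have h1 : ((G.image n).card : ℝ) * (1 / 2) ^ m ≤ ∑ k ∈ G.image n, ‖y k‖ ^ 2 := by
      rw [← nsmul_eq_mul]
      apply Finset.card_nsmul_le_sum
      intro k hk
      obtain ⟨g, hg, rfl⟩ := Finset.mem_image.mp hk
      exact hn g hg
    have h2 : ∑ k ∈ G.image n, ‖y k‖ ^ 2 = ∑ f : Λ, ∑ k ∈ G.image n, ‖⟪e k, v f⟫_ℂ‖ ^ 2 := by
      rw [Finset.sum_comm]
      refine Finset.sum_congr rfl fun k _ => ?_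
      rw [EuclideanSpace.norm_sq_eq]
      refine Finset.sum_congr rfl fun f _ => ?_
      rw [← norm_inner_symm]
    have h3 : ∑ f : Λ, ∑ k ∈ G.image n, ‖⟪e k, v f⟫_ℂ‖ ^ 2 ≤ ∑ _f : Λ, (1 : ℝ) := by
      refine Finset.sum_le_sum fun f _ => ?_
      have h4 := he.sum_inner_products_le (v f) (s := G.image n)
      rwa [hv.norm_eq_one, one_pow] at h4
    rw [Finset.sum_const, Finset.card_univ, nsmul_eq_mul, mul_one] at h3
    linarith
  have hA2 : (G.image n).card ≤ Fintype.card Λ * 2 ^ m := by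
    have h1 : ((G.image n).card : ℝ) ≤ Fintype.card Λ * 2 ^ m := by
      have h2 := mul_le_mul_of_nonneg_right hA (by positivity : (0 : ℝ) ≤ 2 ^ m)
      have h3 : ((G.image n).card : ℝ) * (1 / 2) ^ m * 2 ^ m = (G.image n).card := by
        rw [mul_assoc, ← mul_pow]
        norm_num
      linarith
    exact_mod_cast h1
  have h5 : 7 * (G.image n).card ≤ 7 * (Fintype.card Λ * 2 ^ m) := Nat.mul_le_mul_left 7 hA2
  rw [← mul_assoc] at h5
  omega

/-- the coordinates of `x` in the `k`-th block -/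
noncomputable def arr {Λ : ℕ → Type} [∀ k, Fintype (Λ k)] (β : HilbertBasis (Σ k, Λ k) ℂ H)
    (k : ℕ) (x : H) : EuclideanSpace ℂ (Λ k) := WithLp.toLp 2 (fun f => ⟪β ⟨k, f⟩, x⟫_ℂ)

theorem h170_arr_inner {Λ : ℕ → Type} [∀ k, Fintype (Λ k)] (β : HilbertBasis (Σ k, Λ k) ℂ H)
    (x y : H) : HasSum (fun k => ⟪arr β k x, arr β k y⟫_ℂ) ⟪x, y⟫_ℂ := by
  have h1 := β.hasSum_inner_mul_inner x y
  refine HasSum.sigma h1 ?_
  intro k
  have h2 : ⟪arr β k x, arr β k y⟫_ℂ = ∑ f : Λ k, ⟪x, β ⟨k, f⟩⟫_ℂ * ⟪β ⟨k, f⟩, y⟫_ℂ := by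
    rw [PiLp.inner_apply]
    apply Finset.sum_congr rfl
    intro f _
    show ⟪(⟪β ⟨k, f⟩, x⟫_ℂ : ℂ), (⟪β ⟨k, f⟩, y⟫_ℂ : ℂ)⟫_ℂ = _
    rw [RCLike.inner_apply, inner_conj_symm, mul_comm]
  rw [h2]
  exact hasSum_fintype _

theorem h170_arr_norm {Λ : ℕ → Type} [∀ k, Fintype (Λ k)] (β : HilbertBasis (Σ k, Λ k) ℂ H)
    (x : H) : HasSum (fun k => ‖arr β k x‖ ^ 2) (‖x‖ ^ 2) := by
  have h1 := Complex.hasSum_re (h170_arr_inner β x x)
  have h2 : (⟪x, x⟫_ℂ).re = ‖x‖ ^ 2 := by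
    rw [inner_self_eq_norm_sq_to_K]
    norm_cast
  rw [h2] at h1
  have h3 : (fun k => (⟪arr β k x, arr β k x⟫_ℂ).re) = fun k => ‖arr β k x‖ ^ 2 := by
    funext k
    rw [inner_self_eq_norm_sq_to_K]
    norm_cast
  rw [h3] at h1
  exact h1

theorem final_bound {Λ : ℕ → Type} [∀ k, Fintype (Λ k)] (β : HilbertBasis (Σ k, Λ k) ℂ H)
    (z e : H) (he : ‖e‖ = 1)
    (hz : ∀ k, ‖⟪arr β k z, arr β k e⟫_ℂ‖ ^ 2 ≤
      ‖arr β k z‖ ^ 2 * (‖arr β k e‖ ^ 2 / 4 + (1 / 2 : ℝ) ^ (k + 3))) :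
    2 * (⟪z, e⟫_ℂ).re ≤ ‖z‖ ^ 2 + 1 / 2 := by
  have h1 := (Complex.hasSum_re (h170_arr_inner β z e)).mul_left 2
  have h2 := h170_arr_norm β z
  have h3 := (h170_arr_norm β e).div_const 4
  have h4 : HasSum (fun k : ℕ => (1 / 2 : ℝ) ^ (k + 3)) (1 / 4) := by
    have h5 := hasSum_geometric_two.mul_left ((1 / 2 : ℝ) ^ 3)
    have h6 : (fun k : ℕ => (1 / 2 : ℝ) ^ (k + 3)) = fun k : ℕ => (1 / 2 : ℝ) ^ 3 * (1 / 2) ^ k := by
      funext k
      rw [pow_add, mul_comm]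
    rw [h6]
    have h7 : (1 / 2 : ℝ) ^ 3 * 2 = 1 / 4 := by norm_num
    rw [h7] at h5
    exact h5
  have h5 := h2.add (h3.add h4)
  have h6 := hasSum_le (fun k => ?_) h1 h5
  · rw [he] at h6
    have h7 : ‖z‖ ^ 2 + (1 ^ 2 / 4 + 1 / 4) = ‖z‖ ^ 2 + 1 / 2 := by norm_num
    rw [h7] at h6
    exact h6
  · show 2 * (⟪arr β k z, arr β k e⟫_ℂ).re ≤
      ‖arr β k z‖ ^ 2 + (‖arr β k e‖ ^ 2 / 4 + (1 / 2 : ℝ) ^ (k + 3))
    have h7 := hz k
    have h8 : (⟪arr β k z, arr β k e⟫_ℂ).re ≤ ‖⟪arr β k z, arr β k e⟫_ℂ‖ := Complex.re_le_norm _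
    have h9 : 0 ≤ ‖⟪arr β k z, arr β k e⟫_ℂ‖ := norm_nonneg _
    have h10 : 0 ≤ ‖arr β k z‖ ^ 2 := by positivity
    have h11 : 0 ≤ ‖arr β k e‖ ^ 2 / 4 + (1 / 2 : ℝ) ^ (k + 3) := by positivity
    obtain ⟨a, ha⟩ : ∃ a, a = ‖arr β k z‖ ^ 2 := ⟨_, rfl⟩
    obtain ⟨b, hb⟩ : ∃ b, b = ‖arr β k e‖ ^ 2 / 4 + (1 / 2 : ℝ) ^ (k + 3) := ⟨_, rfl⟩
    obtain ⟨t, ht⟩ : ∃ t, t = ‖⟪arr β k z, arr β k e⟫_ℂ‖ := ⟨_, rfl⟩
    rw [← ha, ← hb] at h7 ⊢
    rw [← ht] at h7 h8 h9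
    rw [← ha] at h10
    rw [← hb] at h11
    have h12 : 2 * t ≤ a + b := by
      nlinarith [sq_nonneg (a - b)]
    linarith

/-- the index set of the `k`-th block -/
abbrev Lam (q : ℕ → ℕ) (k : ℕ) : Type := (Fin k → Bool) → Fin (q k) × Fin (q k)

/-- the closed subspace attached to a branch `ξ` and a choice `γ` of code words -/
def LL (q : ℕ → ℕ) (β : HilbertBasis (Σ k, Lam q k) ℂ H) (ξ : ℕ → Bool)
    (γ : ∀ k, Fin (q k) → Fin (q k)) : Submodule ℂ H where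
  carrier := {x | ∀ k, RR (fun i : Fin k => ξ i) (γ k) (fun f : Lam q k => ⟪β ⟨k, f⟩, x⟫_ℂ)}
  zero_mem' := by
    intro k
    exact ⟨fun f _ => by simp, fun f f' _ _ _ => by simp⟩
  add_mem' := by
    intro a b ha hb k
    refine ⟨fun f hf => ?_, fun f f' h1 h2 h3 => ?_⟩
    · have h1 := (ha k).1 f hf
      have h2 := (hb k).1 f hf
      simp only at h1 h2
      simp only [inner_add_right, h1, h2, add_zero]
    · have e1 := (ha k).2 f f' h1 h2 h3
      have e2 := (hb k).2 f f' h1 h2 h3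
      simp only at e1 e2
      simp only [inner_add_right, e1, e2]
  smul_mem' := by
    intro c a ha k
    refine ⟨fun f hf => ?_, fun f f' h1 h2 h3 => ?_⟩
    · have h1 := (ha k).1 f hf
      simp only at h1
      simp only [inner_smul_right, h1, mul_zero]
    · have e1 := (ha k).2 f f' h1 h2 h3
      simp only at e1
      simp only [inner_smul_right, e1]

theorem mem_LL {q : ℕ → ℕ} {β : HilbertBasis (Σ k, Lam q k) ℂ H} {ξ : ℕ → Bool}
    {γ : ∀ k, Fin (q k) → Fin (q k)} {x : H} :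
    x ∈ LL q β ξ γ ↔
      ∀ k, RR (fun i : Fin k => ξ i) (γ k) (fun f : Lam q k => ⟪β ⟨k, f⟩, x⟫_ℂ) := Iff.rfl

theorem isClosed_LL (q : ℕ → ℕ) (β : HilbertBasis (Σ k, Lam q k) ℂ H) (ξ : ℕ → Bool)
    (γ : ∀ k, Fin (q k) → Fin (q k)) : IsClosed (LL q β ξ γ : Set H) := by
  have : (LL q β ξ γ : Set H) = ⋂ k, ({x | ∀ f : Lam q k, (f (fun i : Fin k => ξ i)).2 ≠
      γ k (f (fun i : Fin k => ξ i)).1 → ⟪β ⟨k, f⟩, x⟫_ℂ = 0} ∩
      {x | ∀ f f' : Lam q k, (∀ t, t ≠ (fun i : Fin k => ξ i) → f t = f' t) →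
        (f (fun i : Fin k => ξ i)).2 = γ k (f (fun i : Fin k => ξ i)).1 →
        (f' (fun i : Fin k => ξ i)).2 = γ k (f' (fun i : Fin k => ξ i)).1 →
        ⟪β ⟨k, f⟩, x⟫_ℂ = ⟪β ⟨k, f'⟩, x⟫_ℂ}) := by
    ext x
    simp only [SetLike.mem_coe, mem_LL, RR, Set.mem_iInter, Set.mem_inter_iff, Set.mem_setOf_eq]
  rw [this]
  refine isClosed_iInter fun k => IsClosed.inter ?_ ?_
  · simp only [Set.setOf_forall]
    refine isClosed_iInter fun f => isClosed_iInter fun _ => ?_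
    exact isClosed_eq (by fun_prop) (by fun_prop)
  · simp only [Set.setOf_forall]
    refine isClosed_iInter fun f => isClosed_iInter fun f' => isClosed_iInter fun _ =>
      isClosed_iInter fun _ => isClosed_iInter fun _ => ?_
    exact isClosed_eq (by fun_prop) (by fun_prop)

theorem exists_level {I : Type*} (F : Finset I) (ξ : I → ℕ → Bool) (hξ : Function.Injective ξ) :
    ∃ k : ℕ, ∀ i ∈ F, ∀ j ∈ F,
      (fun t : Fin k => ξ i t) = (fun t : Fin k => ξ j t) → i = j := by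
  classical
  have h : ∀ p : I × I, ∃ n : ℕ, p.1 ≠ p.2 → ξ p.1 n ≠ ξ p.2 n := by
    intro p
    by_cases hp : p.1 = p.2
    · exact ⟨0, fun h => absurd hp h⟩
    · obtain ⟨n, hn⟩ := Function.ne_iff.mp (fun h => hp (hξ h))
      exact ⟨n, fun _ => hn⟩
  choose n hn using h
  refine ⟨(F ×ˢ F).sup n + 1, fun i hi j hj hij => ?_⟩
  by_contra hne
  have hle : n (i, j) ≤ (F ×ˢ F).sup n :=
    Finset.le_sup (f := n) (Finset.mk_mem_product hi hj)
  have := congrFun hij ⟨n (i, j), by omega⟩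
  exact hn (i, j) hne this

theorem exists_common (q : ℕ → ℕ) (hq : ∀ k, 0 < q k) (β : HilbertBasis (Σ k, Lam q k) ℂ H)
    {I : Type*} (F : Finset I) (ξ : I → ℕ → Bool) (hξ : Function.Injective ξ)
    (γ : I → ∀ k, Fin (q k) → Fin (q k)) :
    ∃ x : H, ‖x‖ = 1 ∧ ∀ i ∈ F, x ∈ LL q β (ξ i) (γ i) := by
  classical
  obtain ⟨k, hk⟩ := exists_level F ξ hξ
  let Γ : (Fin k → Bool) → (Fin (q k) → Fin (q k)) := fun s =>
    if h : ∃ i ∈ F, (fun t : Fin k => ξ i t) = s then γ h.choose k else id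
  have hΓ : ∀ i ∈ F, Γ (fun t : Fin k => ξ i t) = γ i k := by
    intro i hi
    have h : ∃ j ∈ F, (fun t : Fin k => ξ j t) = (fun t : Fin k => ξ i t) := ⟨i, hi, rfl⟩
    have h2 : h.choose = i := hk _ h.choose_spec.1 _ hi h.choose_spec.2
    simp only [Γ]
    rw [dif_pos h, h2]
  let T : Finset (Lam q k) := Finset.univ.filter (fun f => ∀ s, (f s).2 = Γ s (f s).1)
  let f0 : Lam q k := fun s => (⟨0, hq k⟩, Γ s ⟨0, hq k⟩)
  have hf0 : f0 ∈ T := by simp [T, f0]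
  let x0 : H := ∑ f ∈ T, β ⟨k, f⟩
  have hco : ∀ j : (Σ k, Lam q k), ⟪β j, x0⟫_ℂ = ∑ f ∈ T, if j = ⟨k, f⟩ then 1 else 0 := by
    intro j
    simp only [x0, inner_sum]
    refine Finset.sum_congr rfl fun f _ => ?_
    exact orthonormal_iff_ite.mp β.orthonormal j ⟨k, f⟩
  have hco1 : ∀ f : Lam q k, ⟪β ⟨k, f⟩, x0⟫_ℂ = if f ∈ T then 1 else 0 := by
    intro f
    rw [hco]
    simp [Sigma.mk.injEq]
  have hco2 : ∀ (k' : ℕ), k' ≠ k → ∀ f : Lam q k', ⟪β ⟨k', f⟩, x0⟫_ℂ = 0 := by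
    intro k' hk' f
    rw [hco]
    refine Finset.sum_eq_zero fun f' _ => ?_
    rw [if_neg]
    intro h
    exact hk' (congrArg Sigma.fst h)
  have hx0 : x0 ≠ 0 := by
    intro h
    have := hco1 f0
    rw [h, if_pos hf0, inner_zero_right] at this
    exact zero_ne_one this
  have hmem : ∀ i ∈ F, x0 ∈ LL q β (ξ i) (γ i) := by
    intro i hi
    rw [mem_LL]
    intro k'
    by_cases hk' : k' = k
    · subst hk'
      refine ⟨fun f hf => ?_, fun f f' h1 h2 h3 => ?_⟩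
      · simp only [hco1]
        rw [if_neg]
        intro hT
        simp only [T, Finset.mem_filter, Finset.mem_univ, true_and] at hT
        have := hT (fun t : Fin k' => ξ i t)
        rw [hΓ i hi] at this
        exact hf this
      · simp only [hco1]
        have hiff : f ∈ T ↔ f' ∈ T := by
          simp only [T, Finset.mem_filter, Finset.mem_univ, true_and]
          constructor
          · intro hT s
            by_cases hs : s = (fun t : Fin k' => ξ i t)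
            · rw [hs, hΓ i hi]; exact h3
            · rw [← h1 s hs]; exact hT s
          · intro hT s
            by_cases hs : s = (fun t : Fin k' => ξ i t)
            · rw [hs, hΓ i hi]; exact h2
            · rw [h1 s hs]; exact hT s
        simp only [hiff]
    · exact ⟨fun f _ => hco2 k' hk' f, fun f f' _ _ _ => by
        simp only [hco2 k' hk' f, hco2 k' hk' f']⟩
  refine ⟨((‖x0‖⁻¹ : ℝ) : ℂ) • x0, ?_, fun i hi => (LL q β (ξ i) (γ i)).smul_mem _ (hmem i hi)⟩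
  rw [norm_smul, Complex.norm_real, norm_inv, norm_norm, inv_mul_cancel₀ (norm_ne_zero_iff.mpr hx0)]

theorem exists_kill (q : ℕ → ℕ) (hq : ∀ k, 0 < q k) (G : ∀ k, Finset (Fin (q k) → Fin (q k)))
    (hG1 : ∀ k, ∀ g ∈ G k, ∀ h ∈ G k, g ≠ h →
      8 * (Finset.univ.filter (fun a => g a = h a)).card ≤ q k)
    (hG2 : ∀ k, 7 * (q k * q k) ^ (2 ^ k) * 2 ^ (k + 3) < (G k).card)
    (β : HilbertBasis (Σ k, Lam q k) ℂ H) (ξ : ℕ → Bool) (e : ℕ → H) (he : Orthonormal ℂ e) :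
    ∃ γ : ∀ k, Fin (q k) → Fin (q k), ∀ z ∈ LL q β ξ γ, ∀ n,
      2 * (⟪z, e n⟫_ℂ).re ≤ ‖z‖ ^ 2 + 1 / 2 := by
  classical
  have h : ∀ k, ∃ g ∈ G k, ∀ n, (1 / 2 : ℝ) ^ (k + 3) ≤ ‖arr β k (e n)‖ ^ 2 →
      ∀ X : EuclideanSpace ℂ (Lam q k), RR (fun i : Fin k => ξ i) g (fun f => X f) →
        ‖⟪X, arr β k (e n)⟫_ℂ‖ ^ 2 ≤ ‖X‖ ^ 2 * (‖arr β k (e n)‖ ^ 2 / 4) := by
    intro k
    refine exists_good (fun f : Lam q k => β ⟨k, f⟩) ?_ e he (G k)
      (fun g X => RR (fun i : Fin k => ξ i) g (fun f => X f)) ?_ (k + 3) ?_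
    · exact β.orthonormal.comp _ (fun a b hab => by simpa using hab)
    · intro g hg h hh hgh X Y hX hY
      exact overlap (hq k) _ g h (hG1 k g hg h hh hgh) X Y hX hY
    · have hc : Fintype.card (Lam q k) = (q k * q k) ^ (2 ^ k) := by
        simp [Lam, Fintype.card_fun]
      rw [hc]
      exact hG2 k
  choose γ hγ1 hγ2 using h
  refine ⟨γ, fun z hz n => ?_⟩
  refine final_bound β z (e n) (he.1 n) fun k => ?_
  have hRR : RR (fun i : Fin k => ξ i) (γ k) (fun f => arr β k z f) := hz k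
  by_cases hN : (1 / 2 : ℝ) ^ (k + 3) ≤ ‖arr β k (e n)‖ ^ 2
  · refine (hγ2 k n hN _ hRR).trans ?_
    have : (0 : ℝ) ≤ (1 / 2 : ℝ) ^ (k + 3) := by positivity
    gcongr
    linarith
  · push Not at hN
    have h1 : ‖⟪arr β k z, arr β k (e n)⟫_ℂ‖ ≤ ‖arr β k z‖ * ‖arr β k (e n)‖ :=
      norm_inner_le_norm _ _
    calc ‖⟪arr β k z, arr β k (e n)⟫_ℂ‖ ^ 2 ≤ (‖arr β k z‖ * ‖arr β k (e n)‖) ^ 2 := by gcongr
      _ = ‖arr β k z‖ ^ 2 * ‖arr β k (e n)‖ ^ 2 := by ring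
      _ ≤ ‖arr β k z‖ ^ 2 * (‖arr β k (e n)‖ ^ 2 / 4 + (1 / 2 : ℝ) ^ (k + 3)) := by
        gcongr
        have : (0 : ℝ) ≤ ‖arr β k (e n)‖ ^ 2 / 4 := by positivity
        linarith


/-- Every separable infinite-dimensional complex Hilbert space `H` carries a pure state of `B(H)`
that is not diagonalizable. -/
theorem result {H : Type*} [NormedAddCommGroup H] [InnerProductSpace ℂ H] [CompleteSpace H]
    [TopologicalSpace.SeparableSpace H] (hinf : ¬ FiniteDimensional ℂ H) :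
    ∃ φ : (H →L[ℂ] H) →L[ℂ] ℂ, IsPureState φ ∧ ¬ IsDiagonalizable φ := by
  classical
  choose q hq G hG1 hG2 using exists_code
  haveI : Infinite (Σ k, Lam q k) := by
    refine Infinite.of_injective (fun k : ℕ => (⟨k, fun _ => (⟨0, hq k⟩, ⟨0, hq k⟩)⟩ : Σ k, Lam q k)) ?_
    intro a b hab
    exact congrArg Sigma.fst hab
  obtain ⟨β⟩ := exists_basis_reindex hinf (Σ k, Lam q k)
  obtain ⟨c, hc⟩ := exists_inj β
  let I := {e : ℕ → H // Orthonormal ℂ e}
  have hkill : ∀ e : I, ∃ γ : ∀ k, Fin (q k) → Fin (q k), ∀ z ∈ LL q β (c e.1) γ, ∀ n,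
      2 * (⟪z, e.1 n⟫_ℂ).re ≤ ‖z‖ ^ 2 + 1 / 2 := fun e =>
    exists_kill q hq G hG1 hG2 β (c e.1) e.1 e.2
  choose γ hγ using hkill
  haveI hcl : ∀ e : I, CompleteSpace (LL q β (c e.1) (γ e)) := fun e =>
    (isClosed_LL q β (c e.1) (γ e)).completeSpace_coe
  let Q : I → (H →L[ℂ] H) := fun e => (LL q β (c e.1) (γ e)).starProjection
  obtain ⟨φ, hφ, hφQ⟩ := exists_pure Q (fun e => Submodule.starProjection_norm_le _) (by
    intro F
    obtain ⟨x, hx, hxF⟩ := exists_common q hq β F (fun e : I => c e.1)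
      (fun a b hab => Subtype.ext (hc hab)) γ
    exact ⟨x, hx, fun i hi => Submodule.starProjection_eq_self_iff.mpr (hxF i hi)⟩)
  refine ⟨φ, hφ, ?_⟩
  rintro ⟨b, U, hU⟩
  let e : I := ⟨b, b.orthonormal⟩
  have h1 := hU (Q e)
  rw [hφQ e] at h1
  have h2 : Tendsto (fun n => (⟪b n, Q e (b n)⟫_ℂ).re) U (𝓝 ((1 : ℂ).re)) :=
    (Complex.continuous_re.tendsto _).comp h1
  have h3 : ∀ n, (⟪b n, Q e (b n)⟫_ℂ).re ≤ 1 / 2 := by
    intro n
    set z : H := Q e (b n) with hz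
    have hzL : z ∈ LL q β (c e.1) (γ e) := Submodule.starProjection_apply_mem _ _
    have h4 := hγ e z hzL n
    have h5 : ⟪z, (b n : H)⟫_ℂ = ⟪z, z⟫_ℂ := by
      have := Submodule.starProjection_inner_eq_zero (K := LL q β (c e.1) (γ e)) (b n) z hzL
      have h6 : ⟪(b n : H) - z, z⟫_ℂ = 0 := this
      rw [inner_sub_left, sub_eq_zero] at h6
      rw [← inner_conj_symm, h6, inner_conj_symm]
    have h7 : (⟪z, (b n : H)⟫_ℂ).re = ‖z‖ ^ 2 := by
      rw [h5]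
      exact inner_self_eq_norm_sq (𝕜 := ℂ) z
    have h8 : (⟪(b n : H), z⟫_ℂ).re = (⟪z, (b n : H)⟫_ℂ).re := by
      rw [← inner_conj_symm, Complex.conj_re]
    have h9 : 2 * (⟪z, (b n : H)⟫_ℂ).re ≤ ‖z‖ ^ 2 + 1 / 2 := h4
    rw [h8]
    rw [h7] at h9 ⊢
    linarith
  have h10 : (1 : ℂ).re ≤ 1 / 2 := le_of_tendsto h2 (Eventually.of_forall h3)
  norm_num at h10

end Pool.Agent.Results.MP_b8e63c_lc.NonDiagonalizable
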